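import Mathlib

/-!
# Project TR (MP_0e8110_lc): a cubic function unbounded below on the integer points of a rational
polyhedron has an unbounded thin ray (all dimensions)

Proof. `C` = recession cone. If no thin ray is unbounded, then for `e ∈ C`, `e ≠ 0`, and `y ∈ G e`
compatible: (C1) `T e e e ≥ 0`; (C2) if `T e e e = 0` then `A = 3 T e e y + Q e e ≥ 0`; (C3) if also `A = 0`
then `B = 3 T e y y + 2 Q e y + L e ≥ 0` (Kronecker). Let `F (x k) → -∞`. Take an ultrafilter and a flag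
`x = ∑ lam i • d i + y`, `lam i → ∞`, `lam (i+1) / lam i → 0`, `y → y0`. Put `e 0 = d 0`,
`e (j+1) = R j • e j + d (j+1)` with `R j` large and generic, `X j = lam j • e j + ∑_{i>j} lam i • d i + y`.
Then `X (j+1) = X j - (lam j - R j lam (j+1)) e j`, and eventually `F (X (j+1)) ≤ F (X j)` or `0 ≤ F (X j)`; and
`F (X (m-1))` is bounded below.
-/

set_option autoImplicit false

namespace Pool.Agent.X302.TR

open Filter Topology

variable {n : ℕ}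

abbrev V (n : ℕ) : Type := Fin n → ℝ

/-- integer row times vector -/
def dot (m : Fin n → ℤ) (v : V n) : ℝ := ∑ j, (m j : ℝ) * v j

/-- the integer point as a real vector -/
def toV (x : Fin n → ℤ) : V n := fun j => (x j : ℝ)

/-- the closed group generated by the integer points and the line of `e` -/
def G (e : V n) : Set (V n) := {v | ∀ m : Fin n → ℤ, dot m e = 0 → ∃ t : ℤ, dot m v = t}

/-- the rational hull of `e` -/
def H (e : V n) : Set (V n) := {v | ∀ m : Fin n → ℤ, dot m e = 0 → dot m v = 0}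

/-- a cubic function -/
structure Cub (n : ℕ) where
  T : V n →ₗ[ℝ] V n →ₗ[ℝ] V n →ₗ[ℝ] ℝ
  Q : V n →ₗ[ℝ] V n →ₗ[ℝ] ℝ
  L : V n →ₗ[ℝ] ℝ
  c : ℝ
  T1 : ∀ x y z, T x y z = T y x z
  T2 : ∀ x y z, T x y z = T x z y
  Q1 : ∀ x y, Q x y = Q y x

/-- the value -/
def Cub.val (F : Cub n) (x : V n) : ℝ := F.T x x x + F.Q x x + F.L x + F.c
def Cub.A (F : Cub n) (e y : V n) : ℝ := 3 * F.T e e y + F.Q e e
def Cub.B (F : Cub n) (e y : V n) : ℝ := 3 * F.T e y y + 2 * F.Q e y + F.L e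

/-- points of the polyhedron -/
def Pt {p : ℕ} (a : Fin p → Fin n → ℤ) (b : Fin p → ℝ) (y : V n) : Prop := ∀ i, dot (a i) y ≤ b i
/-- the recession cone -/
def Rc {p : ℕ} (a : Fin p → Fin n → ℤ) (d : V n) : Prop := ∀ i, dot (a i) d ≤ 0
/-- `y + s • e` is in the polyhedron for large `s` (if `e` is in the recession cone) -/
def Cm {p : ℕ} (a : Fin p → Fin n → ℤ) (b : Fin p → ℝ) (e y : V n) : Prop :=
  ∀ i, dot (a i) e = 0 → dot (a i) y ≤ b i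

/-- the ray from `y` in direction `d` is not an unbounded thin ray -/
def Bdd {p : ℕ} (a : Fin p → Fin n → ℤ) (b : Fin p → ℝ) (F : Cub n) (y d : V n) : Prop :=
  ∃ ε > 0, ∃ M : ℝ, ∀ x : Fin n → ℤ, Pt a b (toV x) → (∃ s : ℝ, 0 ≤ s ∧ ‖toV x - (y + s • d)‖ ≤ ε) →
    M ≤ F.val (toV x)

/-- no unbounded thin ray -/
def NoRay {p : ℕ} (a : Fin p → Fin n → ℤ) (b : Fin p → ℝ) (F : Cub n) : Prop :=
  ∀ y d : V n, d ≠ 0 → Pt a b y → Rc a d → Bdd a b F y d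

/-- TR_KRON: from `Pool.Agent.W654.Kron` (`kronecker`, discrete Kronecker on `UnitAddTorus`): choose `h > 0`
with `h * dot m e ∉ ℤ` whenever `dot m e ≠ 0` (countably many conditions), `z = h • e`, target
`v - N • z`. -/
def S_KRON : Prop := ∀ (n : ℕ) (e v : V n), v ∈ G e → ∀ ε > 0, ∀ S : ℝ, ∃ s ≥ S, ∃ x : Fin n → ℤ,
  ‖toV x - (v + s • e)‖ < ε

/-- TR_HULL: small elements of `G e` are in the hull (the group `{m | dot m e = 0}` is finitely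
generated) -/
def S_HULL : Prop := ∀ (n : ℕ) (e : V n), ∃ ε > 0, ∀ v ∈ G e, ‖v‖ < ε → v ∈ H e

/-- TR_NEAR: `y ∈ G e`, compatible, `e ∈ C`: for all `ε` there are integer points of the polyhedron near
`y + s • e`, `s` arbitrarily large; and `x - (y + s • e) ∈ H e`. From KRON, HULL (for `dot (a i) e < 0` take `s`
large; for `dot (a i) e = 0`, `dot (a i)` vanishes on `H e`). -/
def S_NEAR : Prop := S_KRON → S_HULL → ∀ (n p : ℕ) (a : Fin p → Fin n → ℤ) (b : Fin p → ℝ) (e y : V n),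
  Rc a e → y ∈ G e → Cm a b e y → ∀ ε > 0, ∀ S : ℝ, ∃ s ≥ S, ∃ x : Fin n → ℤ, Pt a b (toV x) ∧
    ‖toV x - (y + s • e)‖ < ε ∧ toV x - (y + s • e) ∈ H e

/-- TR_COND: (C1), (C2), (C3). Base point of the ray: `y + K • e` (`K` large, then it is a point of the
polyhedron). `F.val (y + δ + s • e) = s^3 T e e e + s^2 A (y+δ) + s B (y+δ) + val (y+δ)`. If `T e e e < 0` or
`A y < 0`: use NEAR with small `ε`. (C3): if `T e e ·` is not zero on `H e`, take `v ∈ H e` small with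
`T e e v < 0`: then `A (y+v) < 0`, contradiction to (C2) at `y + v ∈ G e`. So `A (y+δ) = 0` for
`δ ∈ H e`, and if `B y < 0` then `s B (y+δ) → -∞`. -/
def S_COND : Prop := S_NEAR → S_KRON → S_HULL →
  ∀ (n p : ℕ) (a : Fin p → Fin n → ℤ) (b : Fin p → ℝ) (F : Cub n), NoRay a b F →
  ∀ e y : V n, e ≠ 0 → Rc a e → y ∈ G e → Cm a b e y →
    0 ≤ F.T e e e ∧ (F.T e e e = 0 → 0 ≤ F.A e y) ∧
      (F.T e e e = 0 → F.A e y = 0 → 0 ≤ F.B e y)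

/-- TR_ELL: consequences of `T ≥ 0` on the cone. (i) `T e e u ≥ 0` for `u ∈ C` (look at `e + s u`, `s → 0`).
(ii) `g ∈ C`, `T e e g = 0` ⟹ `T e e v = 0` for `v ∈ H g` (`g ± η v ∈ C` for small `η`).
(iii) if `M e + w ∈ C` for all large `M` and `T e e w = 0` then `T e w w ≥ 0`. -/
def S_ELL : Prop := ∀ (n p : ℕ) (a : Fin p → Fin n → ℤ) (F : Cub n),
  (∀ u, Rc a u → 0 ≤ F.T u u u) → ∀ e : V n, Rc a e → F.T e e e = 0 →
  (∀ u, Rc a u → 0 ≤ F.T e e u) ∧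
  (∀ g, Rc a g → F.T e e g = 0 → ∀ v ∈ H g, F.T e e v = 0) ∧
  ∀ w, (∃ M : ℝ, ∀ s ≥ M, Rc a (s • e + w)) → F.T e e w = 0 → 0 ≤ F.T e w w

/-- TR_STEP: `x' = x - (lam - R mu) e`, `x = lam e + s`. `F.val x - F.val x'
= (lam - R mu) ((lam + R mu) A(s) + B(s))` as `T e e e = 0`, and `|B(s) - 3 T e w w| ≤ K mu ρ`. -/
def S_STEP : Prop := ∀ (n : ℕ) (U : Filter ℕ) (F : Cub n) (e : V n) (R c K : ℝ)
  (lam mu ρ : ℕ → ℝ) (s w r : ℕ → V n), 0 < R → 0 < c → 0 < K → F.T e e e = 0 →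
  (∀ᶠ k in U, s k = w k + r k ∧ 1 ≤ ρ k ∧ ρ k ≤ mu k ∧ ‖w k‖ ≤ K * mu k ∧ ‖r k‖ ≤ K * ρ k ∧
    c * ρ k ≤ F.A e (s k) ∧ 0 ≤ F.T e (w k) (w k)) →
  Tendsto (fun k => mu k / lam k) U (𝓝 0) → Tendsto lam U atTop →
  ∀ᶠ k in U, F.val ((R * mu k) • e + s k) ≤ F.val (lam k • e + s k)

/-- TR_STEP0: the same when `A = 0`, `B ≥ 0` -/
def S_STEP0 : Prop := ∀ (n : ℕ) (F : Cub n) (e s : V n) (l l' : ℝ), F.T e e e = 0 →
  F.A e s = 0 → 0 ≤ F.B e s → l' ≤ l → F.val (l' • e + s) ≤ F.val (l • e + s)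

/-- TR_POS: if `T e e e > 0` then `F.val (lam e + s) ≥ 0` eventually, for `s = o(lam)` -/
def S_POS : Prop := ∀ (n : ℕ) (U : Filter ℕ) (F : Cub n) (e : V n) (lam : ℕ → ℝ) (s : ℕ → V n),
  0 < F.T e e e → Tendsto lam U atTop → Tendsto (fun k => ‖s k‖ / lam k) U (𝓝 0) →
  ∀ᶠ k in U, 0 ≤ F.val (lam k • e + s k)

/-- TR_LAST: the last step: `s → y0` bounded -/
def S_LAST : Prop := ∀ (n : ℕ) (U : Filter ℕ) (F : Cub n) (e y0 : V n) (lam : ℕ → ℝ) (s : ℕ → V n),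
  F.T e e e = 0 → Tendsto lam U atTop → Tendsto s U (𝓝 y0) →
  (∀ᶠ k in U, F.A e (s k) = F.A e y0) → (∀ᶠ k in U, 0 ≤ F.A e (s k)) →
  (∀ᶠ k in U, F.A e (s k) = 0 → 0 ≤ F.B e (s k)) →
  ∃ M : ℝ, ∀ᶠ k in U, M ≤ F.val (lam k • e + s k)

/-- TR_FLAG: flags along an ultrafilter. Induction on the dimension of a subspace containing all `x k`
(eventually): if `‖x k‖` is bounded along `U`, `m = 0`, `y = x` converges (compactness). Otherwise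
`‖x k‖ → ∞`, `x k / ‖x k‖ → d 0 ≠ 0`; choose a linear functional `φ` with `φ (d 0) = 1`,
`lam 0 = φ (x k)` (`φ (x k) / ‖x k‖ → 1`), and continue with `x - lam 0 • d 0` in the kernel of `φ`. -/
def S_FLAG : Prop := ∀ (n : ℕ) (U : Ultrafilter ℕ) (x : ℕ → V n),
  ∃ (m : ℕ) (d : ℕ → V n) (lam : ℕ → ℕ → ℝ) (y : ℕ → V n) (y0 : V n),
    (∀ᶠ k in (U : Filter ℕ), x k = ∑ i ∈ Finset.range m, lam i k • d i + y k) ∧
    (∀ i < m, Tendsto (lam i) U atTop) ∧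
    (∀ i, i + 1 < m → Tendsto (fun k => lam (i + 1) k / lam i k) U (𝓝 0)) ∧
    (0 < m → d 0 ≠ 0) ∧ Tendsto y U (𝓝 y0)

/-- TR_SGN: sign of a sum with scales: if all `α i = 0` for `i < i0` implies `α i0 ≤ 0`, then eventually
`∑ lam i k * α i ≤ 0` -/
def S_SGN : Prop := ∀ (U : Filter ℕ) (lam : ℕ → ℕ → ℝ) (α : ℕ → ℝ) (j m : ℕ),
  (∀ i, j ≤ i → i < m → Tendsto (lam i) U atTop) →
  (∀ i, j ≤ i → i + 1 < m → Tendsto (fun k => lam (i + 1) k / lam i k) U (𝓝 0)) →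
  (∀ i0, j ≤ i0 → i0 < m → (∀ i, j ≤ i → i < i0 → α i = 0) → α i0 ≤ 0) →
  ∀ᶠ k in U, ∑ i ∈ Finset.Ico j m, lam i k * α i ≤ 0

/-- TR_SIZE: size of tails: `‖∑_{i ∈ [j, m)} lam i d i + y‖ ≤ K lam j`, eventually (`j < m`) -/
def S_SIZE : Prop := ∀ (n : ℕ) (U : Filter ℕ) (lam : ℕ → ℕ → ℝ) (d : ℕ → V n) (y : ℕ → V n) (y0 : V n)
  (m : ℕ), (∀ i < m, Tendsto (lam i) U atTop) →
  (∀ i, i + 1 < m → Tendsto (fun k => lam (i + 1) k / lam i k) U (𝓝 0)) → Tendsto y U (𝓝 y0) →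
  ∃ K : ℝ, 0 < K ∧ ∀ j < m, (∀ᶠ k in U, ‖∑ i ∈ Finset.Ico j m, lam i k • d i + y k‖ ≤ K * lam j k) ∧
    (∀ m' ≤ m, ∀ᶠ k in U, ‖∑ i ∈ Finset.Ico j m', lam i k • d i‖ ≤ K * lam j k) ∧
    Tendsto (fun k => (lam j k)⁻¹ • (∑ i ∈ Finset.Ico j m, lam i k • d i + y k)) U (𝓝 (d j))

/-- TR_CHAIN: the directions `e j`. `R j` large: `dot (a i) (e j) < 0 → dot (a i) (e (j+1)) < 0`; `R j` generic:
`dot m (e (j+1)) = 0 → dot m (e j) = 0` for integer `m` (countably many values excluded). The cone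
property by induction: if `dot (a i) (e j) = 0` then `dot (a i) (d i') = 0` for `i' ≤ j`, and the
hypothesis gives `dot (a i) (d (j+1)) ≤ 0`. -/
def S_CHAIN : Prop := ∀ (n p : ℕ) (a : Fin p → Fin n → ℤ) (m : ℕ) (d : ℕ → V n), 0 < m → d 0 ≠ 0 →
  (∀ i : Fin p, ∀ j < m, (∀ j' < j, dot (a i) (d j') = 0) → dot (a i) (d j) ≤ 0) →
  ∃ (e : ℕ → V n) (R : ℕ → ℝ), e 0 = d 0 ∧ (∀ j, 0 < R j) ∧ (∀ j, j + 1 < m → e (j + 1) = R j • e j + d (j + 1)) ∧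
    (∀ j < m, e j ≠ 0 ∧ Rc a (e j)) ∧
    (∀ j, j + 1 < m → ∀ i, dot (a i) (e (j + 1)) = 0 → dot (a i) (e j) = 0) ∧
    ∀ j, j + 1 < m → ∀ q : Fin n → ℤ, dot q (e (j + 1)) = 0 → dot q (e j) = 0

/-- TR_POLY: a real polynomial of degree at most three is a cubic function -/
def S_POLY : Prop := ∀ (n : ℕ) (f : MvPolynomial (Fin n) ℝ), f.totalDegree ≤ 3 →
  ∃ F : Cub n, ∀ x : V n, F.val x = MvPolynomial.eval x f

/-- TR_SCALE: rational inequalities can be scaled to integer rows -/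
def S_SCALE : Prop := ∀ (n p : ℕ) (A : Matrix (Fin p) (Fin n) ℚ) (b : Fin p → ℚ),
  ∃ (a : Fin p → Fin n → ℤ) (b' : Fin p → ℝ), (∀ y : V n, Pt a b' y ↔
    ∀ i, ∑ j, (A i j : ℝ) * y j ≤ (b i : ℝ)) ∧ ∀ y : V n, Rc a y ↔ ∀ i, ∑ j, (A i j : ℝ) * y j ≤ 0

end Pool.Agent.X302.TR
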