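import Pool.Agent.X302.TR.Stm

set_option autoImplicit false

namespace Pool.Agent.X302.TR

open Filter Topology

variable {n : ℕ}

theorem dot_add (m : Fin n → ℤ) (x y : V n) : dot m (x + y) = dot m x + dot m y := by
  unfold dot
  rw [← Finset.sum_add_distrib]
  exact Finset.sum_congr rfl fun j _ => by rw [Pi.add_apply]; ring

theorem dot_smul (m : Fin n → ℤ) (c : ℝ) (x : V n) : dot m (c • x) = c * dot m x := by
  unfold dot
  rw [Finset.mul_sum]
  exact Finset.sum_congr rfl fun j _ => by rw [Pi.smul_apply, smul_eq_mul]; ring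

theorem dot_zero (m : Fin n → ℤ) : dot m (0 : V n) = 0 := by simp [dot]

theorem dot_sum (m : Fin n → ℤ) (s : Finset ℕ) (f : ℕ → V n) :
    dot m (∑ i ∈ s, f i) = ∑ i ∈ s, dot m (f i) := by
  classical
  induction s using Finset.induction_on with
  | empty => simp [dot_zero]
  | insert a s ha ih => rw [Finset.sum_insert ha, Finset.sum_insert ha, dot_add, ih]

theorem dot_sub (m : Fin n → ℤ) (x y : V n) : dot m (x - y) = dot m x - dot m y := by
  rw [sub_eq_add_neg, dot_add, ← neg_one_smul ℝ y, dot_smul]; ring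

theorem dot_toV (m : Fin n → ℤ) (x : Fin n → ℤ) : ∃ t : ℤ, dot m (toV x) = t :=
  ⟨∑ j, m j * x j, by unfold dot toV; push_cast; rfl⟩

theorem continuous_dot (m : Fin n → ℤ) : Continuous (dot m : V n → ℝ) := by
  unfold dot
  fun_prop

theorem continuous_lin (f : V n →ₗ[ℝ] ℝ) : Continuous f := f.continuous_of_finiteDimensional

/-- ratios decrease, so later scales are smaller -/
theorem lam_le {U : Filter ℕ} {lam : ℕ → ℕ → ℝ} {m : ℕ}
    (h1 : ∀ i < m, Tendsto (lam i) U atTop)
    (h2 : ∀ i, i + 1 < m → Tendsto (fun k => lam (i + 1) k / lam i k) U (𝓝 0)) (i : ℕ) :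
    ∀ t, i + t < m → ∀ᶠ k in U, lam (i + t) k ≤ lam i k := by
  intro t
  induction t with
  | zero => intro _; exact Eventually.of_forall fun k => le_rfl
  | succ t ih =>
    intro ht
    filter_upwards [ih (by omega), (h2 (i + t) ht).eventually (gt_mem_nhds (zero_lt_one)),
      (h1 (i + t) (by omega)).eventually_gt_atTop 0] with k a1 a2 a3
    rw [div_lt_one a3] at a2
    exact a2.le.trans a1

end Pool.Agent.X302.TR
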