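import Pool.Agent.X302.TR.Base

set_option autoImplicit false

namespace Pool.Agent.X302.TR

open Filter Topology

variable {n p : ℕ}

/-- tails -/
def W (m : ℕ) (d : ℕ → V n) (lam : ℕ → ℕ → ℝ) (y : ℕ → V n) (j k : ℕ) : V n :=
  ∑ i ∈ Finset.Ico j m, lam i k • d i + y k

theorem W_step {m : ℕ} {d : ℕ → V n} {lam : ℕ → ℕ → ℝ} {y : ℕ → V n} {j : ℕ} (h : j < m) (k : ℕ) :
    W m d lam y j k = lam j k • d j + W m d lam y (j + 1) k := by
  unfold W
  rw [Finset.sum_eq_sum_Ico_succ_bot h, add_assoc]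

theorem W_split {m : ℕ} {d : ℕ → V n} {lam : ℕ → ℕ → ℝ} {y : ℕ → V n} {j i0 : ℕ} (h : j ≤ i0)
    (h' : i0 ≤ m) (k : ℕ) :
    W m d lam y j k = ∑ i ∈ Finset.Ico j i0, lam i k • d i + W m d lam y i0 k := by
  unfold W
  rw [← Finset.sum_Ico_consecutive _ h h', add_assoc]

theorem W_last {m : ℕ} {d : ℕ → V n} {lam : ℕ → ℕ → ℝ} {y : ℕ → V n} (k : ℕ) :
    W m d lam y m k = y k := by
  simp [W]

section chain

variable {m : ℕ} {d : ℕ → V n} {lam : ℕ → ℕ → ℝ} {y : ℕ → V n} {e : ℕ → V n} {R : ℕ → ℝ}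
  {x : ℕ → Fin n → ℤ}

theorem key (he0 : e 0 = d 0) (hst : ∀ j, j + 1 < m → e (j + 1) = R j • e j + d (j + 1))
    (hgen : ∀ j, j + 1 < m → ∀ q : Fin n → ℤ, dot q (e (j + 1)) = 0 → dot q (e j) = 0) {k : ℕ}
    (hx : toV (x k) = W m d lam y 0 k) : ∀ j < m, ∀ q : Fin n → ℤ, dot q (e j) = 0 →
      dot q (W m d lam y (j + 1) k) = dot q (toV (x k)) := by
  intro j
  induction j with
  | zero =>
    intro hj q hq
    rw [he0] at hq
    rw [hx, W_step hj, dot_add, dot_smul, hq]
    simp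
  | succ j ih =>
    intro hj q hq
    have h1 := hgen j hj q hq
    have h2 := ih (by omega) q h1
    have h3 : dot q (d (j + 1)) = 0 := by
      rw [hst j hj, dot_add, dot_smul, h1, mul_zero, zero_add] at hq
      exact hq
    rw [← h2, W_step hj, dot_add, dot_smul, h3, mul_zero, zero_add]

theorem X_succ (hst : ∀ j, j + 1 < m → e (j + 1) = R j • e j + d (j + 1)) {j : ℕ} (hj : j + 1 < m)
    (k : ℕ) : lam (j + 1) k • e (j + 1) + W m d lam y (j + 1 + 1) k =
      (R j * lam (j + 1) k) • e j + W m d lam y (j + 1) k := by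
  rw [hst j hj, W_step hj, smul_add, smul_smul, mul_comm (lam (j + 1) k), add_assoc]

/-- the partial sums are in the cone, up to a multiple of `e j` -/
theorem cone_w {a : Fin p → Fin n → ℤ} {U : Filter ℕ} (hSGN : S_SGN)
    (hlam : ∀ i < m, Tendsto (lam i) U atTop)
    (hrat : ∀ i, i + 1 < m → Tendsto (fun k => lam (i + 1) k / lam i k) U (𝓝 0))
    (hst : ∀ j, j + 1 < m → e (j + 1) = R j • e j + d (j + 1))
    (hRc : ∀ j < m, Rc a (e j)) {j i0 : ℕ} (hj : j < m) (hi0 : i0 ≤ m) :
    ∀ᶠ k in U, ∃ M : ℝ, ∀ s ≥ M, Rc a (s • e j + ∑ i ∈ Finset.Ico (j + 1) i0, lam i k • d i) := by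
  have h1 : ∀ i : Fin p, ∀ᶠ k in U, ∃ M : ℝ, ∀ s ≥ M,
      dot (a i) (s • e j + ∑ i ∈ Finset.Ico (j + 1) i0, lam i k • d i) ≤ 0 := by
    intro i
    rcases (hRc j hj i).lt_or_eq with h | h
    · refine Eventually.of_forall fun k => ?_
      set w := dot (a i) (∑ i ∈ Finset.Ico (j + 1) i0, lam i k • d i) with hw
      refine ⟨|w| / (-dot (a i) (e j)), fun s hs => ?_⟩
      rw [dot_add, dot_smul, ← hw]
      rw [ge_iff_le, div_le_iff₀ (by linarith)] at hs
      have := le_abs_self w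
      linarith
    · have hz : ∀ t, j + t < m → (∀ i', j + 1 ≤ i' → i' ≤ j + t → dot (a i) (d i') = 0) →
          dot (a i) (e (j + t)) = 0 := by
        intro t
        induction t with
        | zero => intro _ _; exact h
        | succ t ih =>
          intro ht hz
          have h2 := ih (by omega) fun i' h3 h4 => hz i' h3 (by omega)
          rw [← add_assoc, hst (j + t) (by omega), dot_add, dot_smul, h2, mul_zero, zero_add]
          exact hz (j + t + 1) (by omega) (by omega)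
      have h2 := hSGN U lam (fun i' => dot (a i) (d i')) (j + 1) i0
        (fun i' _ h3 => hlam i' (by omega)) (fun i' _ h3 => hrat i' (by omega)) (by
          intro i1 h3 h4 h5
          obtain ⟨t, rfl⟩ : ∃ t, i1 = j + t + 1 := ⟨i1 - (j + 1), by omega⟩
          have h6 := hz t (by omega) fun i' h7 h8 => h5 i' h7 (by omega)
          have h7 := hRc (j + t + 1) (by omega) i
          rw [hst (j + t) (by omega), dot_add, dot_smul, h6, mul_zero, zero_add] at h7
          exact h7)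
      filter_upwards [h2] with k hk
      refine ⟨0, fun s _ => ?_⟩
      rw [dot_add, dot_smul, h, mul_zero, zero_add, dot_sum]
      simpa only [dot_smul] using hk
  filter_upwards [eventually_all.2 h1] with k hk
  choose M hM using hk
  refine ⟨∑ i, |M i|, fun s hs i => hM i s ?_⟩
  calc M i ≤ |M i| := le_abs_self _
    _ ≤ ∑ i, |M i| := Finset.single_le_sum (f := fun i => |M i|) (fun i _ => abs_nonneg _)
        (Finset.mem_univ i)
    _ ≤ s := hs

end chain

end Pool.Agent.X302.TR
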