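import Pool.Agent.X302.TR.Main1

set_option autoImplicit false

namespace Pool.Agent.X302.TR

open Filter Topology

variable {n p : ℕ}

/-- the conclusions of COND -/
def Cond (a : Fin p → Fin n → ℤ) (b : Fin p → ℝ) (F : Cub n) : Prop :=
  ∀ e y : V n, e ≠ 0 → Rc a e → y ∈ G e → Cm a b e y →
    0 ≤ F.T e e e ∧ (F.T e e e = 0 → 0 ≤ F.A e y) ∧
      (F.T e e e = 0 → F.A e y = 0 → 0 ≤ F.B e y)

structure Ctx (a : Fin p → Fin n → ℤ) (b : Fin p → ℝ) (U : Ultrafilter ℕ) (m : ℕ) (d : ℕ → V n)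
    (lam : ℕ → ℕ → ℝ) (y : ℕ → V n) (y0 : V n) (e : ℕ → V n) (R : ℕ → ℝ) (x : ℕ → Fin n → ℤ) :
    Prop where
  hlam : ∀ i < m, Tendsto (lam i) U atTop
  hrat : ∀ i, i + 1 < m → Tendsto (fun k => lam (i + 1) k / lam i k) U (𝓝 0)
  hy : Tendsto y U (𝓝 y0)
  he0 : e 0 = d 0
  hst : ∀ j, j + 1 < m → e (j + 1) = R j • e j + d (j + 1)
  hRc : ∀ j < m, e j ≠ 0 ∧ Rc a (e j)
  hgen : ∀ j, j + 1 < m → ∀ q : Fin n → ℤ, dot q (e (j + 1)) = 0 → dot q (e j) = 0
  hR : ∀ j, 0 < R j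
  hP : ∀ k, Pt a b (toV (x k))
  hx : ∀ᶠ k in (U : Filter ℕ), toV (x k) = W m d lam y 0 k

section

variable {a : Fin p → Fin n → ℤ} {b : Fin p → ℝ} {F : Cub n} {U : Ultrafilter ℕ} {m : ℕ}
  {d : ℕ → V n} {lam : ℕ → ℕ → ℝ} {y : ℕ → V n} {y0 : V n} {e : ℕ → V n} {R : ℕ → ℝ}
  {x : ℕ → Fin n → ℤ}

theorem memG (C : Ctx a b U m d lam y y0 e R x) {j : ℕ} (hj : j < m) :
    ∀ᶠ k in (U : Filter ℕ), W m d lam y (j + 1) k ∈ G (e j) := by
  filter_upwards [C.hx] with k hk q hq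
  rw [key C.he0 C.hst C.hgen hk j hj q hq]
  exact dot_toV q (x k)

theorem memCm (C : Ctx a b U m d lam y y0 e R x) {j : ℕ} (hj : j < m) :
    ∀ᶠ k in (U : Filter ℕ), Cm a b (e j) (W m d lam y (j + 1) k) := by
  filter_upwards [C.hx] with k hk i hi
  rw [key C.he0 C.hst C.hgen hk j hj (a i) hi]
  exact C.hP k i

theorem tail_small (hSIZE : S_SIZE) (C : Ctx a b U m d lam y y0 e R x) {j : ℕ} (hj : j < m) :
    Tendsto (fun k => ‖W m d lam y (j + 1) k‖ / lam j k) U (𝓝 0) := by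
  rcases Nat.lt_or_ge (j + 1) m with h | h
  · obtain ⟨K, hK, hKK⟩ := hSIZE n U lam d y y0 m C.hlam C.hrat C.hy
    have h1 := (hKK (j + 1) h).1
    have h2 : Tendsto (fun k => K * (lam (j + 1) k / lam j k)) U (𝓝 0) := by
      simpa using (C.hrat j h).const_mul K
    refine squeeze_zero' ?_ ?_ h2
    · filter_upwards [(C.hlam j hj).eventually_gt_atTop 0] with k hk
      positivity
    · filter_upwards [h1, (C.hlam j hj).eventually_gt_atTop 0] with k hk hk0
      rw [← mul_div_assoc]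
      exact div_le_div_of_nonneg_right hk hk0.le
  · obtain rfl : j + 1 = m := by omega
    simp only [W_last]
    exact C.hy.norm.div_atTop (C.hlam j hj)

theorem y_const (hHULL : S_HULL) (C : Ctx a b U m d lam y y0 e R x)
    {g : V n} (hm : 0 < m) (hg : ∀ v ∈ H (e (m - 1)), F.T g g v = 0) :
    ∀ᶠ k in (U : Filter ℕ), F.T g g (y k) = F.T g g y0 := by
  obtain ⟨ε, hε, hH⟩ := hHULL n (e (m - 1))
  have h1 : ∀ᶠ k in (U : Filter ℕ), ‖y k - y0‖ < ε / 2 := by
    have := C.hy.sub_const y0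
    rw [sub_self] at this
    have h2 := this.norm
    rw [norm_zero] at h2
    exact h2.eventually (gt_mem_nhds (by positivity))
  have h2 : ∀ᶠ k in (U : Filter ℕ), y k ∈ G (e (m - 1)) := by
    have h3 := memG C (j := m - 1) (by omega)
    have h4 : m - 1 + 1 = m := by omega
    rw [h4] at h3
    filter_upwards [h3] with k hk
    rwa [W_last] at hk
  obtain ⟨k1, hk1, hk1'⟩ := (h1.and h2).exists
  have h3 : ∀ᶠ k in (U : Filter ℕ), F.T g g (y k) = F.T g g (y k1) := by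
    filter_upwards [h1, h2] with k a1 a2
    have h4 : y k - y k1 ∈ H (e (m - 1)) := by
      refine hH _ ?_ ?_
      · intro q hq
        obtain ⟨t, ht⟩ := a2 q hq
        obtain ⟨t', ht'⟩ := hk1' q hq
        exact ⟨t - t', by rw [dot_sub, ht, ht']; push_cast; ring⟩
      · calc ‖y k - y k1‖ = ‖(y k - y0) - (y k1 - y0)‖ := by congr 1; abel
          _ ≤ ‖y k - y0‖ + ‖y k1 - y0‖ := norm_sub_le _ _
          _ < ε := by linarith
    have h5 := hg _ h4
    rw [map_sub] at h5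
    linarith
  have h4 : Tendsto (fun k => F.T g g (y k)) U (𝓝 (F.T g g y0)) :=
    ((continuous_lin (F.T g g)).tendsto _).comp C.hy
  have h5 : Tendsto (fun k => F.T g g (y k)) U (𝓝 (F.T g g (y k1))) :=
    tendsto_const_nhds.congr' (by filter_upwards [h3] with k hk; exact hk.symm)
  have h6 := tendsto_nhds_unique h4 h5
  filter_upwards [h3] with k hk
  rw [hk, h6]

/-- one step, if `T e e e > 0` -/
theorem step_pos (hSIZE : S_SIZE) (hPOS : S_POS) (C : Ctx a b U m d lam y y0 e R x) {j : ℕ}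
    (hj : j < m) (hT : 0 < F.T (e j) (e j) (e j)) :
    ∀ᶠ k in (U : Filter ℕ), 0 ≤ F.val (lam j k • e j + W m d lam y (j + 1) k) :=
  hPOS n U F (e j) (lam j) (fun k => W m d lam y (j + 1) k) hT (C.hlam j hj)
    (tail_small hSIZE C hj)

theorem sumT {g : V n} {j i0 : ℕ} (h : ∀ i, j ≤ i → i < i0 → F.T g g (d i) = 0) (k : ℕ) :
    F.T g g (∑ i ∈ Finset.Ico j i0, lam i k • d i) = 0 := by
  rw [map_sum]
  refine Finset.sum_eq_zero fun i hi => ?_
  rw [Finset.mem_Ico] at hi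
  rw [map_smul, h i hi.1 hi.2, smul_zero]

/-- `T e_j e_j e_i = 0` while all `T e_j e_j d_i' = 0` -/
theorem chainT (C : Ctx a b U m d lam y y0 e R x) {j : ℕ} (h0 : F.T (e j) (e j) (e j) = 0) :
    ∀ t, j + t < m → (∀ i, j + 1 ≤ i → i ≤ j + t → F.T (e j) (e j) (d i) = 0) →
      F.T (e j) (e j) (e (j + t)) = 0 := by
  intro t
  induction t with
  | zero => intro _ _; exact h0
  | succ t ih =>
    intro ht hz
    have h2 := ih (by omega) fun i' h3 h4 => hz i' h3 (by omega)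
    rw [← add_assoc, C.hst (j + t) (by omega), map_add, map_smul, h2, smul_zero, zero_add]
    exact hz (j + t + 1) (by omega) (by omega)

theorem step_zero (hHULL : S_HULL) (hELL : S_ELL) (hSTEP : S_STEP) (hSTEP0 : S_STEP0)
    (hSGN : S_SGN) (hSIZE : S_SIZE) (hc : Cond a b F) (hC1 : ∀ u, Rc a u → 0 ≤ F.T u u u)
    (C : Ctx a b U m d lam y y0 e R x) {j : ℕ} (hj : j + 1 < m)
    (hT : F.T (e j) (e j) (e j) = 0) :
    ∀ᶠ k in (U : Filter ℕ), F.val ((R j * lam (j + 1) k) • e j + W m d lam y (j + 1) k) ≤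
      F.val (lam j k • e j + W m d lam y (j + 1) k) := by
  classical
  have hjm : j < m := by omega
  obtain ⟨l1, l2, l3⟩ := hELL n p a F hC1 (e j) (C.hRc j hjm).2 hT
  obtain ⟨K, hK, hKK⟩ := hSIZE n U lam d y y0 m C.hlam C.hrat C.hy
  have hcw : ∀ i0 ≤ m, ∀ᶠ k in (U : Filter ℕ),
      ∃ M : ℝ, ∀ s ≥ M, Rc a (s • e j + ∑ i ∈ Finset.Ico (j + 1) i0, lam i k • d i) :=
    fun i0 hi0 => cone_w hSGN C.hlam C.hrat C.hst (fun i hi => (C.hRc i hi).2) hjm hi0
  by_cases hex : ∃ i0, (j + 1 ≤ i0 ∧ i0 < m) ∧ F.T (e j) (e j) (d i0) ≠ 0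
  · obtain ⟨⟨h1, h2⟩, h3⟩ := Nat.find_spec hex
    set i0 := Nat.find hex with hi0
    have hmin : ∀ i, j + 1 ≤ i → i < i0 → F.T (e j) (e j) (d i) = 0 := by
      intro i h4 h5
      by_contra h6
      exact Nat.find_min hex h5 ⟨⟨h4, by omega⟩, h6⟩
    obtain ⟨t, ht⟩ : ∃ t, i0 = j + t + 1 := ⟨i0 - (j + 1), by omega⟩
    have hpos : 0 < F.T (e j) (e j) (d i0) := by
      have h4 := chainT C hT t (by omega) fun i h5 h6 => hmin i h5 (by omega)
      have h5 := l1 (e i0) (C.hRc i0 h2).2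
      rw [ht, C.hst (j + t) (by omega), map_add, map_smul, h4, smul_zero, zero_add, ← ht] at h5
      exact lt_of_le_of_ne h5 (Ne.symm h3)
    refine hSTEP n U F (e j) (R j) (F.T (e j) (e j) (d i0)) K (lam j) (lam (j + 1)) (lam i0)
      (fun k => W m d lam y (j + 1) k) (fun k => ∑ i ∈ Finset.Ico (j + 1) i0, lam i k • d i)
      (fun k => W m d lam y i0 k) (C.hR j) hpos hK hT ?_ (C.hrat j hj) (C.hlam j hjm)
    have hlim : Tendsto (fun k => F.T (e j) (e j) ((lam i0 k)⁻¹ • W m d lam y i0 k)) U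
        (𝓝 (F.T (e j) (e j) (d i0))) :=
      ((continuous_lin _).tendsto _).comp (hKK i0 h2).2.2
    filter_upwards [(hKK (j + 1) hj).2.1 i0 h2.le, (hKK i0 h2).1, hcw i0 h2.le,
      (C.hlam i0 h2).eventually_ge_atTop 1,
      lam_le C.hlam C.hrat (j + 1) t (by omega),
      hlim.eventually (lt_mem_nhds (show F.T (e j) (e j) (d i0) * (2 / 3) <
        F.T (e j) (e j) (d i0) by linarith)),
      (C.hlam i0 h2).eventually_ge_atTop (|F.Q (e j) (e j)| / F.T (e j) (e j) (d i0))]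
      with k a1 a2 a3 a4 a5 a6 a7
    have hs : W m d lam y (j + 1) k =
        ∑ i ∈ Finset.Ico (j + 1) i0, lam i k • d i + W m d lam y i0 k := W_split h1 h2.le k
    have hw0 := sumT (F := F) (lam := lam) hmin k
    have a5' : lam i0 k ≤ lam (j + 1) k := by
      have : j + 1 + t = i0 := by omega
      rwa [this] at a5
    refine ⟨hs, a4, a5', a1, a2, ?_, l3 _ a3 hw0⟩
    rw [map_smul, smul_eq_mul] at a6
    have hl : 0 < lam i0 k := by linarith
    have a8 : F.T (e j) (e j) (d i0) * (2 / 3) * lam i0 k < F.T (e j) (e j) (W m d lam y i0 k) := by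
      have := mul_lt_mul_of_pos_right a6 hl
      calc _ < (lam i0 k)⁻¹ * F.T (e j) (e j) (W m d lam y i0 k) * lam i0 k := this
        _ = _ := by field_simp
    have a9 : |F.Q (e j) (e j)| ≤ lam i0 k * F.T (e j) (e j) (d i0) := by
      rwa [div_le_iff₀ hpos] at a7
    have a10 := neg_abs_le (F.Q (e j) (e j))
    unfold Cub.A
    rw [hs, map_add, hw0, zero_add]
    nlinarith
  · push Not at hex
    have hz : ∀ i, j + 1 ≤ i → i < m → F.T (e j) (e j) (d i) = 0 := fun i h1 h2 => hex i ⟨h1, h2⟩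
    have hlast : F.T (e j) (e j) (e (m - 1)) = 0 := by
      have := chainT C hT (m - 1 - j) (by omega) fun i h1 h2 => hz i h1 (by omega)
      have h1 : j + (m - 1 - j) = m - 1 := by omega
      rwa [h1] at this
    have hyc := y_const hHULL C (F := F) (g := e j) (by omega)
      (l2 (e (m - 1)) (C.hRc (m - 1) (by omega)).2 hlast)
    have hA : ∀ᶠ k in (U : Filter ℕ), F.A (e j) (W m d lam y (j + 1) k) = F.A (e j) y0 := by
      filter_upwards [hyc] with k hk
      have hs : W m d lam y (j + 1) k =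
          ∑ i ∈ Finset.Ico (j + 1) m, lam i k • d i + y k := rfl
      unfold Cub.A
      rw [hs, map_add, sumT (F := F) (lam := lam) hz k, zero_add, hk]
    have hcond : ∀ᶠ k in (U : Filter ℕ), 0 ≤ F.A (e j) (W m d lam y (j + 1) k) ∧
        (F.A (e j) (W m d lam y (j + 1) k) = 0 → 0 ≤ F.B (e j) (W m d lam y (j + 1) k)) := by
      filter_upwards [memG C hjm, memCm C hjm] with k h1 h2
      obtain ⟨-, h3, h4⟩ := hc (e j) _ (C.hRc j hjm).1 (C.hRc j hjm).2 h1 h2
      exact ⟨h3 hT, h4 hT⟩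
    have hA0 : 0 ≤ F.A (e j) y0 := by
      obtain ⟨k, h1, h2⟩ := (hA.and hcond).exists
      rw [← h1]
      exact h2.1
    rcases hA0.eq_or_lt with h0 | h0
    · have hle : ∀ᶠ k in (U : Filter ℕ), R j * lam (j + 1) k ≤ lam j k := by
        filter_upwards [(C.hrat j hj).eventually (gt_mem_nhds (inv_pos.2 (C.hR j))),
          (C.hlam j hjm).eventually_gt_atTop 0] with k h1 h2
        rw [div_lt_iff₀ h2] at h1
        calc R j * lam (j + 1) k ≤ R j * ((R j)⁻¹ * lam j k) :=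
              mul_le_mul_of_nonneg_left h1.le (C.hR j).le
          _ = lam j k := by rw [← mul_assoc, mul_inv_cancel₀ (C.hR j).ne', one_mul]
      filter_upwards [hA, hcond, hle] with k h1 h2 h3
      exact hSTEP0 n F (e j) _ _ _ hT (by rw [h1, ← h0]) (h2.2 (by rw [h1, ← h0])) h3
    · refine hSTEP n U F (e j) (R j) (F.A (e j) y0) (K + (‖y0‖ + 1)) (lam j) (lam (j + 1))
        (fun _ => 1) (fun k => W m d lam y (j + 1) k)
        (fun k => ∑ i ∈ Finset.Ico (j + 1) m, lam i k • d i)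
        y (C.hR j) h0 (by positivity) hT ?_ (C.hrat j hj) (C.hlam j hjm)
      have hyb : ∀ᶠ k in (U : Filter ℕ), ‖y k‖ < ‖y0‖ + 1 :=
        C.hy.norm.eventually (gt_mem_nhds (by linarith))
      filter_upwards [(hKK (j + 1) hj).2.1 m le_rfl, hcw m le_rfl,
        (C.hlam (j + 1) hj).eventually_ge_atTop 1, hyb, hA] with k a1 a2 a3 a4 a5
      refine ⟨rfl, le_rfl, a3, ?_, ?_, ?_, l3 _ a2 (sumT (F := F) (lam := lam) hz k)⟩
      · refine a1.trans (mul_le_mul_of_nonneg_right ?_ (by linarith))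
        have := norm_nonneg y0
        linarith
      · rw [mul_one]
        linarith
      · rw [mul_one, a5]

end

end Pool.Agent.X302.TR
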