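import Pool.Agent.X302.TR.Main2

set_option autoImplicit false

namespace Pool.Agent.X302.TR

open Filter Topology

theorem toV_mem_G {n : ℕ} (e : V n) (x : Fin n → ℤ) : toV x ∈ G e := fun q _ => dot_toV q x

/-- if no thin ray is unbounded, then `F` is bounded below on the integer points -/
theorem bounded (hHULL : S_HULL) (hELL : S_ELL) (hSTEP : S_STEP) (hSTEP0 : S_STEP0)
    (hPOS : S_POS) (hLAST : S_LAST) (hFLAG : S_FLAG) (hSGN : S_SGN) (hSIZE : S_SIZE)
    (hCHAIN : S_CHAIN) {n p : ℕ} {a : Fin p → Fin n → ℤ} {b : Fin p → ℝ} {F : Cub n}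
    (hc : Cond a b F) : ∃ M : ℝ, ∀ x : Fin n → ℤ, Pt a b (toV x) → M ≤ F.val (toV x) := by
  by_contra hcon
  push Not at hcon
  choose x hP hx using fun k : ℕ => hcon (-(k : ℝ))
  set U : Ultrafilter ℕ := hyperfilter ℕ with hU
  have hUt : (U : Filter ℕ) ≤ atTop := Nat.hyperfilter_le_atTop
  have fin : ∀ M : ℝ, ¬ ∀ᶠ k in (U : Filter ℕ), M ≤ F.val (toV (x k)) := by
    intro M hM
    have h1 : ∀ᶠ k : ℕ in (U : Filter ℕ), -M < (k : ℝ) :=
      (tendsto_natCast_atTop_atTop.mono_left hUt).eventually_gt_atTop _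
    obtain ⟨k, h2, h3⟩ := (hM.and h1).exists
    have := hx k
    linarith
  obtain ⟨m, d, lam, y, y0, hx0, hlam, hrat, hd0, hy⟩ := hFLAG n U (fun k => toV (x k))
  have hx0' : ∀ᶠ k in (U : Filter ℕ), toV (x k) = W m d lam y 0 k := by
    filter_upwards [hx0] with k hk
    rw [hk]
    unfold W
    rw [Finset.range_eq_Ico]
  rcases Nat.eq_zero_or_pos m with rfl | hm
  · obtain ⟨M, hM⟩ := hLAST n U F 0 y0 (fun k => (k : ℝ)) y (by simp)
      (tendsto_natCast_atTop_atTop.mono_left hUt) hy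
      (Eventually.of_forall fun k => by simp [Cub.A])
      (Eventually.of_forall fun k => by simp [Cub.A])
      (Eventually.of_forall fun k _ => by simp [Cub.B])
    refine fin M ?_
    filter_upwards [hM, hx0'] with k h1 h2
    rw [h2, W_last]
    simpa using h1
  have hC1 : ∀ u, Rc a u → 0 ≤ F.T u u u := by
    intro u hu
    by_cases h0 : u = 0
    · rw [h0]; simp
    · exact (hc u (toV (x 0)) h0 hu (toV_mem_G _ _) fun i _ => hP 0 i).1
  obtain ⟨K, hK, hKK⟩ := hSIZE n U lam d y y0 m hlam hrat hy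
  have hch : ∀ i : Fin p, ∀ j < m, (∀ j' < j, dot (a i) (d j') = 0) → dot (a i) (d j) ≤ 0 := by
    intro i j hj hz
    have t1 : Tendsto (fun k => dot (a i) ((lam j k)⁻¹ • W m d lam y j k)) U
        (𝓝 (dot (a i) (d j))) :=
      ((continuous_dot (a i)).tendsto _).comp (hKK j hj).2.2
    have t2 : Tendsto (fun k => (lam j k)⁻¹ * b i) U (𝓝 0) := by
      simpa using (tendsto_inv_atTop_zero.comp (hlam j hj)).mul_const (b i)
    refine le_of_tendsto_of_tendsto t1 t2 ?_
    filter_upwards [hx0', (hlam j hj).eventually_gt_atTop 0] with k h1 h2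
    rw [dot_smul]
    refine mul_le_mul_of_nonneg_left ?_ (inv_pos.2 h2).le
    have h3 := hP k i
    rw [h1, W_split (Nat.zero_le j) hj.le, dot_add, dot_sum] at h3
    have h4 : ∑ i' ∈ Finset.Ico 0 j, dot (a i) (lam i' k • d i') = 0 := by
      refine Finset.sum_eq_zero fun i' hi' => ?_
      rw [Finset.mem_Ico] at hi'
      rw [dot_smul, hz i' hi'.2, mul_zero]
    rw [h4, zero_add] at h3
    exact h3
  obtain ⟨e, R, he0, hR, hst, hRc, -, hgen⟩ := hCHAIN n p a m d hm (hd0 hm) hch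
  have C : Ctx a b U m d lam y y0 e R x := ⟨hlam, hrat, hy, he0, hst, hRc, hgen, hR, hP, hx0'⟩
  -- the last point
  have hm1 : m - 1 < m := by omega
  have hWm : ∀ k, W m d lam y (m - 1 + 1) k = y k := by
    intro k
    have : m - 1 + 1 = m := by omega
    rw [this, W_last]
  have hlast : ∃ M : ℝ, ∀ᶠ k in (U : Filter ℕ),
      M ≤ F.val (lam (m - 1) k • e (m - 1) + W m d lam y (m - 1 + 1) k) := by
    rcases (hC1 _ (hRc (m - 1) hm1).2).eq_or_lt with h0 | h0
    · have h0' : F.T (e (m - 1)) (e (m - 1)) (e (m - 1)) = 0 := h0.symm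
      obtain ⟨l1, l2, l3⟩ := hELL n p a F hC1 (e (m - 1)) (hRc (m - 1) hm1).2 h0'
      have hyc := y_const hHULL C (F := F) (g := e (m - 1)) hm
        (l2 (e (m - 1)) (hRc (m - 1) hm1).2 h0')
      have hcond : ∀ᶠ k in (U : Filter ℕ), 0 ≤ F.A (e (m - 1)) (y k) ∧
          (F.A (e (m - 1)) (y k) = 0 → 0 ≤ F.B (e (m - 1)) (y k)) := by
        filter_upwards [memG C hm1, memCm C hm1] with k h1 h2
        rw [hWm] at h1 h2
        obtain ⟨-, h3, h4⟩ := hc (e (m - 1)) _ (hRc (m - 1) hm1).1 (hRc (m - 1) hm1).2 h1 h2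
        exact ⟨h3 h0', h4 h0'⟩
      obtain ⟨M, hM⟩ := hLAST n U F (e (m - 1)) y0 (lam (m - 1)) y h0' (hlam (m - 1) hm1) hy
        (by filter_upwards [hyc] with k hk; unfold Cub.A; rw [hk])
        (hcond.mono fun k hk => hk.1) (hcond.mono fun k hk => hk.2)
      refine ⟨M, ?_⟩
      filter_upwards [hM] with k hk
      rwa [hWm]
    · exact ⟨0, step_pos hSIZE hPOS C hm1 h0⟩
  obtain ⟨M, hM⟩ := hlast
  -- descent
  have hdes : ∀ t, t ≤ m - 1 → ∀ᶠ k in (U : Filter ℕ), min 0 M ≤
      F.val (lam (m - 1 - t) k • e (m - 1 - t) + W m d lam y (m - 1 - t + 1) k) := by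
    intro t
    induction t with
    | zero =>
      intro _
      filter_upwards [hM] with k hk
      exact (min_le_right _ _).trans hk
    | succ t ih =>
      intro ht
      obtain ⟨j, hj⟩ : ∃ j, m - 1 - t = j + 1 := ⟨m - 1 - t - 1, by omega⟩
      have hj' : m - 1 - (t + 1) = j := by omega
      rw [hj']
      have h1 := ih (by omega)
      rw [hj] at h1
      have hjm : j + 1 < m := by omega
      rcases (hC1 _ (hRc j (by omega)).2).eq_or_lt with h0 | h0
      · have h2 := step_zero hHULL hELL hSTEP hSTEP0 hSGN hSIZE hc hC1 C hjm h0.symm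
        filter_upwards [h1, h2] with k h3 h4
        rw [X_succ hst hjm] at h3
        exact h3.trans h4
      · filter_upwards [step_pos hSIZE hPOS C (by omega) h0] with k hk
        exact (min_le_left _ _).trans hk
  have h0 := hdes (m - 1) le_rfl
  refine fin (min 0 M) ?_
  filter_upwards [h0, hx0'] with k h1 h2
  have h3 : m - 1 - (m - 1) = 0 := by omega
  rw [h3, he0] at h1
  rw [h2, W_step hm]
  exact h1

end Pool.Agent.X302.TR
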